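import Pool.Agent.Z700.Defs3
import Pool.Agent.Z759.BSD.GENbB

/-!
`S_GENb`: the sum over the genus characters for a fixed `b`, with inert primes.
-/

set_option autoImplicit false

namespace Pool.Agent.Z759.BSD

theorem t_GENb : Pool.Agent.Z701.S_GENb := main_GENb

end Pool.Agent.Z759.BSD
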