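import Pool.Agent.Z700.Defs
import Pool.Agent.Z927.Abs

/-!
The sum over the genus characters for a fixed `b`, with inert primes: abstract part.
-/

set_option autoImplicit false

namespace Pool.Agent.Z759.BSD

open Finset
open Pool.Agent.Z927 (pm_prod pm_pow sum_parity)

/-- the split primes of a set -/
def spl (D : Finset ℕ) : Finset ℕ := D.filter fun p => p % 8 = 1

/-- the inert primes of a set -/
def inr (D : Finset ℕ) : Finset ℕ := D.filter fun p => p % 8 = 5

/-- the number of factors two in the sum over the genus characters -/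
def ex (P : Finset ℕ) : ℕ := if inr P = ∅ then P.card else P.card - 1

open Classical in
/-- the admissible splittings -/
noncomputable def adm (P : Finset ℕ) : Finset (Finset ℕ) := P.powerset.filter fun D => Even (inr D).card

/-- the condition on a character -/
def cnd (P : Finset ℕ) (c : ℕ → ℤ) : Prop :=
  (∀ p ∈ spl P, c p = 1) ∧ ∀ q ∈ inr P, ∀ q' ∈ inr P, c q = c q'

theorem prod_one_add_pm (P : Finset ℕ) (c : ℕ → ℤ) (hc : ∀ p ∈ P, c p = 1 ∨ c p = -1)
    [Decidable (∀ p ∈ P, c p = 1)] :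
    ∏ p ∈ P, (1 + c p) = if ∀ p ∈ P, c p = 1 then 2 ^ P.card else 0 := by
  split_ifs with h
  · rw [Finset.prod_congr rfl (fun p hp => by rw [h p hp] : ∀ p ∈ P, 1 + c p = 1 + 1),
      Finset.prod_const]
    norm_num
  · push Not at h
    obtain ⟨p, hp, hne⟩ := h
    have : c p = -1 := (hc p hp).resolve_left hne
    exact Finset.prod_eq_zero hp (by rw [this]; norm_num)

open Classical in
theorem sum_adm (P : Finset ℕ) (hP : ∀ p ∈ P, p % 8 = 1 ∨ p % 8 = 5) (c : ℕ → ℤ)
    (hc : ∀ p ∈ P, c p = 1 ∨ c p = -1) :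
    ∑ D1 ∈ adm P, ∏ p ∈ D1, c p = if cnd P c then 2 ^ ex P else 0 := by
  set σ : ℕ → ℤ := fun p => if p % 8 = 5 then -1 else 1 with hσ
  have hσ1 : ∀ p, σ p = 1 ∨ σ p = -1 := by
    intro p
    simp only [hσ]
    split_ifs
    · exact Or.inr rfl
    · exact Or.inl rfl
  have hσD : ∀ D : Finset ℕ, ∏ p ∈ D, σ p = (-1) ^ (inr D).card := by
    intro D
    rw [inr, ← Finset.prod_const, Finset.prod_filter]
  -- twice the sum
  have h2 : 2 * ∑ D1 ∈ adm P, ∏ p ∈ D1, c p = ∏ p ∈ P, (1 + c p) + ∏ p ∈ P, (1 + σ p * c p) := by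
    rw [Finset.prod_one_add, Finset.prod_one_add, ← Finset.sum_add_distrib, adm, Finset.sum_filter,
      Finset.mul_sum]
    refine Finset.sum_congr rfl fun D _ => ?_
    rw [Finset.prod_mul_distrib, hσD]
    split_ifs with h
    · rw [h.neg_one_pow]; ring
    · rw [(Nat.not_even_iff_odd.1 h).neg_one_pow]; ring
  have hc2 : ∀ p ∈ P, σ p * c p = 1 ∨ σ p * c p = -1 := by
    intro p hp
    rcases hσ1 p with h | h <;> rcases hc p hp with h' | h' <;> rw [h, h'] <;> norm_num
  rw [prod_one_add_pm P c hc, prod_one_add_pm P (fun p => σ p * c p) hc2] at h2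
  have hsplσ : ∀ p ∈ spl P, σ p = 1 := by
    intro p hp
    have := (Finset.mem_filter.1 hp).2
    simp only [hσ]
    rw [if_neg (by omega)]
  have hinrσ : ∀ p ∈ inr P, σ p = -1 := by
    intro p hp
    have := (Finset.mem_filter.1 hp).2
    simp only [hσ]
    rw [if_pos this]
  have hcase : ∀ p ∈ P, p ∈ spl P ∨ p ∈ inr P := by
    intro p hp
    rcases hP p hp with h | h
    · exact Or.inl (Finset.mem_filter.2 ⟨hp, h⟩)
    · exact Or.inr (Finset.mem_filter.2 ⟨hp, h⟩)
  have hsP : ∀ p ∈ spl P, p ∈ P := fun p hp => (Finset.mem_filter.1 hp).1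
  have hiP : ∀ p ∈ inr P, p ∈ P := fun p hp => (Finset.mem_filter.1 hp).1
  by_cases he : inr P = ∅
  · have hA : (∀ p ∈ P, c p = 1) ↔ cnd P c := by
      constructor
      · intro h
        refine ⟨fun p hp => h p (hsP p hp), ?_⟩
        intro q hq
        rw [he] at hq
        simp at hq
      · rintro ⟨h, -⟩ p hp
        rcases hcase p hp with h' | h'
        · exact h p h'
        · rw [he] at h'
          simp at h'
    have hB : (∀ p ∈ P, σ p * c p = 1) ↔ cnd P c := by
      rw [← hA]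
      refine forall₂_congr fun p hp => ?_
      rcases hcase p hp with h' | h'
      · rw [hsplσ p h', one_mul]
      · rw [he] at h'
        simp at h'
    have hex : ex P = P.card := by rw [ex, if_pos he]
    rw [hex]
    by_cases hcn : cnd P c
    · rw [if_pos (hA.2 hcn), if_pos (hB.2 hcn)] at h2
      rw [if_pos hcn]
      linarith
    · rw [if_neg (fun h => hcn (hA.1 h)), if_neg (fun h => hcn (hB.1 h))] at h2
      rw [if_neg hcn]
      linarith
  · obtain ⟨q0, hq0⟩ := Finset.nonempty_iff_ne_empty.2 he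
    have hex : ex P = P.card - 1 := by rw [ex, if_neg he]
    have hcard : 0 < P.card := Finset.card_pos.2 ⟨q0, hiP q0 hq0⟩
    have hpow : (2 : ℤ) ^ P.card = 2 * 2 ^ (P.card - 1) := by
      conv_lhs => rw [← Nat.sub_add_cancel hcard]
      rw [pow_succ]; ring
    rw [hex]
    by_cases hcn : cnd P c
    · rw [if_pos hcn]
      obtain ⟨h3, h4⟩ := hcn
      rcases hc q0 (hiP q0 hq0) with hq | hq
      · have hA : ∀ p ∈ P, c p = 1 := by
          intro p hp
          rcases hcase p hp with h' | h'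
          · exact h3 p h'
          · rw [h4 p h' q0 hq0, hq]
        have hB : ¬ ∀ p ∈ P, σ p * c p = 1 := by
          intro h
          have := h q0 (hiP q0 hq0)
          rw [hinrσ q0 hq0, hq] at this
          norm_num at this
        rw [if_pos hA, if_neg hB, hpow] at h2
        linarith
      · have hA : ¬ ∀ p ∈ P, c p = 1 := by
          intro h
          have := h q0 (hiP q0 hq0)
          rw [hq] at this
          norm_num at this
        have hB : ∀ p ∈ P, σ p * c p = 1 := by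
          intro p hp
          rcases hcase p hp with h' | h'
          · rw [h3 p h', hsplσ p h']; norm_num
          · rw [h4 p h' q0 hq0, hq, hinrσ p h']; norm_num
        rw [if_neg hA, if_pos hB, hpow] at h2
        linarith
    · have hA : ¬ ∀ p ∈ P, c p = 1 := by
        intro h
        exact hcn ⟨fun p hp => h p (hsP p hp), fun q hq q' hq' => by
          rw [h q (hiP q hq), h q' (hiP q' hq')]⟩
      have hB : ¬ ∀ p ∈ P, σ p * c p = 1 := by
        intro h
        refine hcn ⟨fun p hp => ?_, fun q hq q' hq' => ?_⟩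
        · have := h p (hsP p hp)
          rwa [hsplσ p hp, one_mul] at this
        · have h5 := h q (hiP q hq)
          have h6 := h q' (hiP q' hq')
          rw [hinrσ q hq] at h5
          rw [hinrσ q' hq'] at h6
          linarith
      rw [if_neg hA, if_neg hB] at h2
      rw [if_neg hcn]
      linarith

section
variable {ι : Type*} [Fintype ι] [DecidableEq ι]

open Classical in
/-- the exponent vectors whose character satisfies the condition -/
noncomputable def TC (V : ι → ℕ) (e : ι → ℕ → ℤ) (χ : ℕ → ℤ) (P : Finset ℕ) : Finset (ι → ℕ) :=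
  (Fintype.piFinset fun i => range (V i + 1)).filter fun x =>
    cnd P fun p => χ p * ∏ i, (e i p) ^ (x i)

theorem mem_TC {V : ι → ℕ} {e : ι → ℕ → ℤ} {χ : ℕ → ℤ} {P : Finset ℕ} {x : ι → ℕ} :
    x ∈ TC V e χ P ↔ (∀ i, x i ≤ V i) ∧ cnd P fun p => χ p * ∏ i, (e i p) ^ (x i) := by
  classical
  rw [TC, Finset.mem_filter, Fintype.mem_piFinset]
  simp only [Finset.mem_range, Nat.lt_succ_iff]

theorem abs_sum (V : ι → ℕ) (s : ι → ℤ) (e : ι → ℕ → ℤ) (χ : ℕ → ℤ) (P : Finset ℕ)
    (hP : ∀ p ∈ P, p % 8 = 1 ∨ p % 8 = 5)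
    (he : ∀ i, ∀ p ∈ P, e i p = 1 ∨ e i p = -1) (hχ : ∀ p ∈ P, χ p = 1 ∨ χ p = -1) :
    ∑ D1 ∈ adm P, (∏ p ∈ D1, χ p) *
      ∏ i, ∑ j ∈ range (V i + 1), (s i * ∏ p ∈ D1, e i p) ^ j =
      2 ^ ex P * ∑ x ∈ TC V e χ P, ∏ i, (s i) ^ (x i) := by
  classical
  have h1 : ∀ D1 ∈ adm P, (∏ p ∈ D1, χ p) *
      ∏ i, ∑ j ∈ range (V i + 1), (s i * ∏ p ∈ D1, e i p) ^ j =
      ∑ x ∈ Fintype.piFinset fun i => range (V i + 1),
        (∏ i, (s i) ^ (x i)) * ∏ p ∈ D1, (χ p * ∏ i, (e i p) ^ (x i)) := by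
    intro D1 _
    rw [Finset.prod_univ_sum, Finset.mul_sum]
    refine Finset.sum_congr rfl fun x _ => ?_
    have e1 : ∏ i, (s i * ∏ p ∈ D1, e i p) ^ x i =
        (∏ i, s i ^ x i) * ∏ p ∈ D1, ∏ i, e i p ^ x i := by
      rw [Finset.prod_comm, ← Finset.prod_mul_distrib]
      refine Finset.prod_congr rfl fun i _ => ?_
      rw [mul_pow, ← Finset.prod_pow]
    rw [e1, Finset.prod_mul_distrib]
    ring
  rw [Finset.sum_congr rfl h1, Finset.sum_comm]
  have h2 : ∀ x ∈ Fintype.piFinset fun i => range (V i + 1),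
      ∑ D1 ∈ adm P, (∏ i, (s i) ^ (x i)) * ∏ p ∈ D1, (χ p * ∏ i, (e i p) ^ (x i)) =
      if cnd P (fun p => χ p * ∏ i, (e i p) ^ (x i)) then 2 ^ ex P * ∏ i, (s i) ^ (x i) else 0 := by
    intro x _
    have hE : ∀ p ∈ P, χ p * ∏ i, (e i p) ^ (x i) = 1 ∨ χ p * ∏ i, (e i p) ^ (x i) = -1 := by
      intro p hp
      rcases pm_prod Finset.univ (fun i => (e i p) ^ (x i)) (fun i _ => pm_pow _ (he i p hp) _)
        with h | h <;> rcases hχ p hp with h' | h' <;> rw [h, h'] <;> norm_num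
    rw [← Finset.mul_sum, sum_adm P hP _ hE]
    split_ifs with h
    · ring
    · ring
  rw [Finset.sum_congr rfl h2, ← Finset.sum_filter, ← Finset.mul_sum, TC]

/-- the flip exchanges two conditions -/
theorem flip_mem {V : ι → ℕ} {e : ι → ℕ → ℤ} {χ χ' : ℕ → ℤ} {P : Finset ℕ}
    (he : ∀ i, ∀ p ∈ P, e i p = 1 ∨ e i p = -1)
    (h : ∀ p ∈ P, χ' p = χ p * ∏ i, (e i p) ^ (V i)) {x : ι → ℕ} (hx : x ∈ TC V e χ P) :
    (fun i => V i - x i) ∈ TC V e χ' P := by
  rw [mem_TC] at hx ⊢
  refine ⟨fun i => Nat.sub_le _ _, ?_⟩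
  have key : ∀ p ∈ P, χ' p * ∏ i, (e i p) ^ (V i - x i) = χ p * ∏ i, (e i p) ^ (x i) := by
    intro p hp
    have h1 : (∏ i, (e i p) ^ (V i - x i)) * ∏ i, (e i p) ^ (x i) = ∏ i, (e i p) ^ (V i) := by
      rw [← Finset.prod_mul_distrib]
      refine Finset.prod_congr rfl fun i _ => ?_
      rw [← pow_add, Nat.sub_add_cancel (hx.1 i)]
    have h2 : (∏ i, (e i p) ^ (V i - x i)) * (∏ i, (e i p) ^ (V i - x i)) = 1 := by
      rcases pm_prod Finset.univ (fun i => (e i p) ^ (V i - x i))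
        (fun i _ => pm_pow _ (he i p hp) _) with h | h <;> rw [h] <;> norm_num
    rw [h p hp, ← h1]
    linear_combination (χ p * ∏ i, (e i p) ^ (x i)) * h2
  have hsP : ∀ p ∈ spl P, p ∈ P := fun p hp => (Finset.mem_filter.1 hp).1
  have hiP : ∀ p ∈ inr P, p ∈ P := fun p hp => (Finset.mem_filter.1 hp).1
  refine ⟨fun p hp => ?_, fun q hq q' hq' => ?_⟩
  · show χ' p * ∏ i, (e i p) ^ (V i - x i) = 1
    rw [key p (hsP p hp)]
    exact hx.2.1 p hp
  · show χ' q * ∏ i, (e i q) ^ (V i - x i) = χ' q' * ∏ i, (e i q') ^ (V i - x i)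
    rw [key q (hiP q hq), key q' (hiP q' hq')]
    exact hx.2.2 q hq q' hq'

theorem flip_flip {V : ι → ℕ} {e : ι → ℕ → ℤ} {χ : ℕ → ℤ} {P : Finset ℕ} {x : ι → ℕ}
    (hx : x ∈ TC V e χ P) : (fun i => V i - (V i - x i)) = x := by
  funext i
  have := (mem_TC.1 hx).1 i
  omega

theorem card_flip {V : ι → ℕ} {e : ι → ℕ → ℤ} {χ χ' : ℕ → ℤ} {P : Finset ℕ}
    (he : ∀ i, ∀ p ∈ P, e i p = 1 ∨ e i p = -1)
    (h : ∀ p ∈ P, χ' p = χ p * ∏ i, (e i p) ^ (V i)) :
    (TC V e χ P).card = (TC V e χ' P).card := by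
  have h' : ∀ p ∈ P, χ p = χ' p * ∏ i, (e i p) ^ (V i) := by
    intro p hp
    have h2 : (∏ i, (e i p) ^ (V i)) * (∏ i, (e i p) ^ (V i)) = 1 := by
      rcases pm_prod Finset.univ (fun i => (e i p) ^ (V i))
        (fun i _ => pm_pow _ (he i p hp) _) with h | h <;> rw [h] <;> norm_num
    rw [h p hp, mul_assoc, h2, mul_one]
  refine Finset.card_bij' (fun x _ => fun i => V i - x i) (fun x _ => fun i => V i - x i) ?_ ?_ ?_ ?_
  · intro x hx
    exact flip_mem he h hx
  · intro x hx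
    exact flip_mem he h' hx
  · intro x hx
    exact flip_flip hx
  · intro x hx
    exact flip_flip hx

theorem card_parity (V : ι → ℕ) (e : ι → ℕ → ℤ) (P : Finset ℕ)
    (he : ∀ i, ∀ p ∈ P, e i p = 1 ∨ e i p = -1)
    (hV : ∀ p ∈ P, ∏ i, (e i p) ^ (V i) = 1) :
    Odd (TC V e (fun _ => 1) P).card ↔
      ((∀ i, Even (V i)) ∧ cnd P fun p => ∏ i, (e i p) ^ (V i / 2)) := by
  classical
  have hinv : ∀ x ∈ TC V e (fun _ => 1) P, (fun i => V i - x i) ∈ TC V e (fun _ => 1) P := by
    intro x hx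
    exact flip_mem he (fun p hp => by rw [hV p hp, mul_one]) hx
  set F := (TC V e (fun _ => 1) P).filter fun x => (fun i => V i - x i) = x with hF
  have hpar : ((TC V e (fun _ => 1) P).card : ZMod 2) = (F.card : ZMod 2) := by
    rw [← Finset.card_filter_add_card_filter_not (s := TC V e (fun _ => 1) P)
      (fun x => (fun i => V i - x i) = x)]
    push_cast
    rw [← hF]
    have : (((TC V e (fun _ => 1) P).filter fun x => ¬ (fun i => V i - x i) = x).card : ZMod 2) = 0 := by
      rw [Finset.card_eq_sum_ones]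
      push_cast
      refine Finset.sum_involution (fun x _ => fun i => V i - x i) ?_ ?_ ?_ ?_
      · intro x _; decide
      · intro x hx _
        exact (Finset.mem_filter.1 hx).2
      · intro x hx
        rw [Finset.mem_filter] at hx ⊢
        refine ⟨hinv x hx.1, fun h => hx.2 ?_⟩
        have hx1 := (mem_TC.1 hx.1).1
        funext i
        have := congrFun h i
        have h2 := hx1 i
        simp only at this ⊢
        omega
      · intro x hx
        exact flip_flip (Finset.mem_filter.1 hx).1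
    rw [this, add_zero]
  have hodd : Odd (TC V e (fun _ => 1) P).card ↔ Odd F.card := by
    rw [← ZMod.natCast_eq_one_iff_odd, ← ZMod.natCast_eq_one_iff_odd, hpar]
  rw [hodd]
  have hcn : ∀ x : ι → ℕ, (∀ i, V i = 2 * x i) →
      ((cnd P fun p => ∏ i, (e i p) ^ (V i / 2)) ↔ cnd P fun p => 1 * ∏ i, (e i p) ^ (x i)) := by
    intro x hx
    have : (fun p => ∏ i, (e i p) ^ (V i / 2)) = fun p => 1 * ∏ i, (e i p) ^ (x i) := by
      funext p
      rw [one_mul]
      refine Finset.prod_congr rfl fun i _ => ?_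
      rw [hx i, Nat.mul_div_cancel_left _ (by norm_num)]
    rw [this]
  constructor
  · intro h
    have hpos : F.Nonempty := by
      rw [← Finset.card_pos]
      exact h.pos
    obtain ⟨x, hx⟩ := hpos
    rw [hF, Finset.mem_filter, mem_TC] at hx
    obtain ⟨⟨h1, h2⟩, h3⟩ := hx
    have h4 : ∀ i, V i = 2 * x i := by
      intro i
      have k1 : V i - x i = x i := congrFun h3 i
      have k2 := h1 i
      omega
    exact ⟨fun i => ⟨x i, by rw [h4 i]; ring⟩, (hcn x h4).2 h2⟩
  · rintro ⟨h1, h2⟩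
    have h4 : ∀ i, V i = 2 * (V i / 2) := by
      intro i
      have := Nat.div_mul_cancel (even_iff_two_dvd.1 (h1 i))
      omega
    have : F = {fun i => V i / 2} := by
      ext x
      rw [hF, Finset.mem_filter, mem_TC, Finset.mem_singleton]
      constructor
      · rintro ⟨⟨h3, -⟩, h4⟩
        funext i
        have k1 : V i - x i = x i := congrFun h4 i
        have k2 := h3 i
        show x i = V i / 2
        omega
      · rintro rfl
        refine ⟨⟨fun i => Nat.div_le_self _ _, (hcn _ h4).1 h2⟩, ?_⟩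
        funext i
        have := Nat.div_mul_cancel (even_iff_two_dvd.1 (h1 i))
        show V i - V i / 2 = V i / 2
        omega
    rw [this, Finset.card_singleton]
    exact odd_one

/-- the sum over the admissible sets with a character -/
theorem abs_main (V : ι → ℕ) (s : ι → ℤ) (e : ι → ℕ → ℤ) (χ : ℕ → ℤ) (P : Finset ℕ)
    (hP : ∀ p ∈ P, p % 8 = 1 ∨ p % 8 = 5) (hs : ∀ i, s i = 1 ∨ s i = -1)
    (he : ∀ i, ∀ p ∈ P, e i p = 1 ∨ e i p = -1) (hχ : ∀ p ∈ P, χ p = 1 ∨ χ p = -1) :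
    ∃ n : ℤ, ∑ D1 ∈ adm P, (∏ p ∈ D1, χ p) *
      ∏ i, ∑ j ∈ range (V i + 1), (s i * ∏ p ∈ D1, e i p) ^ j = 2 ^ ex P * n ∧
      (Odd n ↔ Odd (TC V e χ P).card) :=
  ⟨_, abs_sum V s e χ P hP he hχ,
    sum_parity _ _ fun x _ => pm_prod _ _ fun i _ => pm_pow _ (hs i) _⟩

end

end Pool.Agent.Z759.BSD
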